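import Pool.Agent.Helper86.TH.Stmts

/-! # Row BA of the project TH (MP_1b3f64_co) -/

namespace TH70

open MvPolynomial Finset TH

noncomputable section

variable {K : Type*} [Field K] [CharZero K]

theorem end_neg_mul (A B : Module.End K (Sy K)) : -A * B = -(A * B) := rfl

theorem end_mul_neg (A B : Module.End K (Sy K)) : A * -B = -(A * B) := by
  refine LinearMap.ext fun F => ?_
  rw [Module.End.mul_apply, LinearMap.neg_apply, map_neg, LinearMap.neg_apply,
    Module.End.mul_apply]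

/-- the families `g_{j+1}` -/
def gf (q t : K) : ℕ → ℤ → Module.End K (Sy K)
  | 0 => fun k => Dk q t k
  | (j + 1) => fun k => cm q t (Dk q t (k + 1)) (gf q t j k)

/-- the families `h_i` -/
def hf (q t : K) : ℕ → ℤ → Module.End K (Sy K)
  | 0 => fun _ => -mu (X 0)
  | (i + 1) => fun k => cm q t (hf q t i k) (Dk q t (k + 1))

theorem WF_D (q t : K) (x : ℤ) : (fun k => Dk q t (k + x)) ∈ WF q t 1 := by
  refine Submodule.subset_span ⟨[x], rfl, ?_⟩
  funext k
  rw [List.map_cons, List.map_nil, List.prod_cons, List.prod_nil, mul_one, add_comm]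

theorem WF_cm {q t : K} {m n : ℕ} {f g : ℤ → Module.End K (Sy K)} (hWM : ST_WM K)
    (hM : Mj q t 0 ≠ 0) (hf : f ∈ WF q t m) (hg : g ∈ WF q t n) :
    (fun k => cm q t (f k) (g k)) ∈ WF q t (m + n) := by
  have h1 := (hWM q t hM).1 m n f g hf hg
  have h2 := (hWM q t hM).1 n m g f hg hf
  rw [add_comm n m] at h2
  have h3 := (WF q t (m + n)).smul_mem (Mj q t 0)⁻¹ ((WF q t (m + n)).sub_mem h1 h2)
  exact h3

theorem gf_mem {q t : K} (hWM : ST_WM K) (hM : Mj q t 0 ≠ 0) (j : ℕ) :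
    gf q t j ∈ WF q t (j + 1) := by
  induction j with
  | zero =>
    have := WF_D q t 0
    simp only [add_zero] at this
    exact this
  | succ j ih =>
    have := WF_cm hWM hM (WF_D q t 1) ih
    rw [add_comm 1 (j + 1)] at this
    exact this

theorem hf_one {q t : K} (hDX : ST_DX K) (hM : Mj q t 0 ≠ 0) :
    hf q t 1 = fun k => Dk q t (k + 2) := by
  funext k
  have h1 : hf q t 1 k = cm q t (-mu (X 0)) (Dk q t (k + 1)) := rfl
  rw [h1, cm, end_mul_neg, hDX q t (k + 1), end_neg_mul]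
  have h2 : -(mu (X 0) * Dk q t (k + 1)) -
      -(mu (X 0) * Dk q t (k + 1) + Mj q t 0 • Dk q t (k + 1 + 1))
      = Mj q t 0 • Dk q t (k + 1 + 1) := by abel
  rw [h2, smul_smul, inv_mul_cancel₀ hM, one_smul, add_assoc]
  rfl

theorem hf_mem {q t : K} (hDX : ST_DX K) (hWM : ST_WM K) (hM : Mj q t 0 ≠ 0) (i : ℕ) :
    hf q t (i + 1) ∈ WF q t (i + 1) := by
  induction i with
  | zero =>
    rw [zero_add, hf_one hDX hM]
    exact WF_D q t 2
  | succ i ih => exact WF_cm hWM hM ih (WF_D q t 1)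

theorem Dk_zero_eq (q t : K) (hM : Mj q t 0 ≠ 0) : Dk q t 0 = 1 - Mj q t 0 • Del q t := by
  rw [Del, smul_smul, mul_inv_cancel₀ hM, one_smul, sub_sub_cancel]

theorem gf_neg {q t : K} (hM : Mj q t 0 ≠ 0) (h1 : Dk q t (-1) = Mj q t 0 • Cc q t 1) (j : ℕ) :
    gf q t j (-1) = Mj q t 0 • Cc q t (j + 1) := by
  induction j with
  | zero => exact h1
  | succ j ih =>
    have e1 : gf q t (j + 1) (-1) = cm q t (Dk q t (-1 + 1)) (gf q t j (-1)) := rfl
    rw [e1, ih, show (-1 + 1 : ℤ) = 0 from rfl, cm, Dk_zero_eq q t hM]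
    have e2 : Cc q t (j + 1 + 1) = Cc q t (j + 1) * Del q t - Del q t * Cc q t (j + 1) := rfl
    rw [e2]
    simp only [sub_mul, mul_sub, one_mul, mul_one, smul_mul_assoc, mul_smul_comm, smul_sub,
      smul_smul, inv_mul_cancel_left₀ hM]
    abel

theorem hf_neg {q t : K} (hM : Mj q t 0 ≠ 0) (i : ℕ) : hf q t i (-1) = -(Bn q t i) := by
  induction i with
  | zero => rfl
  | succ i ih =>
    have e1 : hf q t (i + 1) (-1) = cm q t (hf q t i (-1)) (Dk q t (-1 + 1)) := rfl
    rw [e1, ih, show (-1 + 1 : ℤ) = 0 from rfl, cm, Dk_zero_eq q t hM]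
    have e2 : Bn q t (i + 1) = Del q t * Bn q t i - Bn q t i * Del q t := rfl
    rw [e2]
    simp only [sub_mul, mul_sub, one_mul, mul_one, smul_mul_assoc, mul_smul_comm, smul_sub,
      smul_smul, end_neg_mul, end_mul_neg, smul_neg, inv_mul_cancel₀ hM, one_smul]
    abel

theorem gf_zero {q t : K} {Q : ℕ → ℕ → Module.End K (Sy K)} (hQ : QF q t Q)
    (h11 : Q 1 1 = Dk q t 1)
    (h2 : ∀ j : ℕ, 0 < j → Q (j + 1) j = cm q t (Q 1 1) (Q j (j - 1))) (j : ℕ) :
    gf q t j 0 = Q (j + 1) j := by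
  induction j with
  | zero => exact hQ.q10.symm
  | succ j ih =>
    have e1 : gf q t (j + 1) 0 = cm q t (Dk q t (0 + 1)) (gf q t j 0) := rfl
    rw [e1, ih, h2 (j + 1) (Nat.succ_pos j), zero_add, h11, Nat.add_sub_cancel]

theorem hf_zero {q t : K} {Q : ℕ → ℕ → Module.End K (Sy K)} (hQ : QF q t Q)
    (h11 : Q 1 1 = Dk q t 1)
    (h1 : ∀ i : ℕ, 0 < i → Q i (i + 1) = cm q t (Q (i - 1) i) (Q 1 1)) (i : ℕ) :
    hf q t i 0 = Q i (i + 1) := by
  induction i with
  | zero => exact hQ.q01.symm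
  | succ i ih =>
    have e1 : hf q t (i + 1) 0 = cm q t (hf q t i 0) (Dk q t (0 + 1)) := rfl
    rw [e1, ih, h1 (i + 1) (Nat.succ_pos i), zero_add, h11, Nat.add_sub_cancel]

theorem st_BA (K : Type*) [Field K] [CharZero K] (hQ1 : ST_Q1 K) (hCB : ST_CB K) (hWM : ST_WM K)
    (hS : ST_S K) (hDX : ST_DX K) : ST_BA K := by
  intro q t hG b hb Q hQ
  have hM : Mj q t 0 ≠ 0 := hG.Mj_ne 0
  obtain ⟨⟨ψ, hψ⟩, hm1⟩ := hCB q t hG b hb
  obtain ⟨hA, hB, hC, -⟩ := hQ1 q t hG Q hQ
  have h11 : Q 1 1 = Dk q t 1 := by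
    have := hC 1
    exact_mod_cast this
  -- membership
  have hmem : ∀ i j : ℕ, (fun k => cm q t (hf q t i k) (gf q t j k)) ∈ WF q t (i + j + 1) := by
    intro i j
    cases i with
    | zero =>
      have h1 := (hWM q t hM).2 (j + 1) (gf q t j) (gf_mem hWM hM j)
      rw [zero_add]
      have e : (fun k => cm q t (hf q t 0 k) (gf q t j k))
          = fun k => cm q t (gf q t j k) (mu (X 0)) := by
        funext k
        have e1 : hf q t 0 k = -mu (X 0) := rfl
        rw [e1, cm, cm, end_neg_mul, end_mul_neg]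
        congr 1
        abel
      rw [e]
      exact h1
    | succ i =>
      have h1 := WF_cm hWM hM (hf_mem hDX hWM hM i) (gf_mem hWM hM j)
      rw [show i + 1 + (j + 1) = i + 1 + j + 1 by omega] at h1
      exact h1
  have hneg : ∀ i j : ℕ, cm q t (hf q t i (-1)) (gf q t j (-1)) = dg b (ψ (i + j + 1)) := by
    intro i j
    rw [hf_neg hM, gf_neg hM hm1, cm, show i + j + 1 = (j + 1) + i by omega, ← hψ]
    simp only [mul_smul_comm, smul_mul_assoc, end_neg_mul, end_mul_neg, smul_neg, sub_neg_eq_add,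
      smul_add, smul_smul, inv_mul_cancel₀ hM, one_smul]
    abel
  refine ⟨fun g k => cm q t (hf q t 0 k) (gf q t (g - 1) k), ψ, fun g hg => ⟨?_, ?_, ?_⟩⟩
  · have := hmem 0 (g - 1)
    rw [show 0 + (g - 1) + 1 = g by omega] at this
    exact this
  · have := hneg 0 (g - 1)
    rw [show 0 + (g - 1) + 1 = g by omega] at this
    exact this
  · intro i j hij
    have h1 := hmem i j
    have h2 := hmem 0 (g - 1)
    rw [hij] at h1
    rw [show 0 + (g - 1) + 1 = g by omega] at h2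
    have h3 := (WF q t g).sub_mem h2 h1
    have h4 := hS q t hG g _ (-1) h3 (by
      have e1 := hneg i j
      have e2 := hneg 0 (g - 1)
      rw [hij] at e1
      rw [show 0 + (g - 1) + 1 = g by omega] at e2
      rw [Pi.sub_apply, e1, e2, sub_self])
    rw [show (-1 + 1 : ℤ) = 0 from rfl, Pi.sub_apply] at h4
    have h5 := sub_eq_zero.mp h4
    refine h5.trans ?_
    rw [hf_zero hQ h11 hA, gf_zero hQ h11 hB]

end

end TH70
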