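import Pool.Agent.Helper86.TH.Stmts

/-! # Row CB of the project TH (MP_1b3f64_co) -/

namespace TH70

open MvPolynomial Finset TH

noncomputable section

variable {K : Type*} [Field K] [CharZero K]

theorem expand_basis (b : Module.Basis Par K (Sy K)) (F : Sy K) :
    F = ∑ μ ∈ (b.repr F).support, b.repr F μ • b μ := by
  conv_lhs => rw [← b.linearCombination_repr F]
  rw [Finsupp.linearCombination_apply, Finsupp.sum]

/-- matrix coefficients of `Bn s` -/
theorem Bn_coef {q t : K} {b : Module.Basis Par K (Sy K)} (hb : IsE q t b)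
    (hM : Mj q t 0 ≠ 0) (s : ℕ) (μ ν : Par) :
    b.repr (Bn q t s (b μ)) ν = (Ps q t ν 0 - Ps q t μ 0) ^ s * b.repr (X 0 * b μ) ν := by
  induction s with
  | zero => rw [pow_zero, one_mul]; rfl
  | succ s ih =>
    have h1 : Bn q t (s + 1) (b μ)
        = Del q t (Bn q t s (b μ)) - Bn q t s (Del q t (b μ)) := rfl
    rw [h1, Del_eq_dg hb hM, dg_apply_basis, map_sub, map_smul, map_smul, Finsupp.sub_apply,
      Finsupp.smul_apply, dg_repr, ih, smul_eq_mul]
    ring

/-- matrix coefficients of `Cc a` -/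
theorem Cc_coef {q t : K} {b : Module.Basis Par K (Sy K)} (hb : IsE q t b)
    (hM : Mj q t 0 ≠ 0) (a : ℕ) (μ ν : Par) :
    b.repr (Cc q t a (b μ)) ν = (Ps q t μ 0 - Ps q t ν 0) ^ a * b.repr (pd (b μ)) ν := by
  induction a with
  | zero => rw [pow_zero, one_mul]; rfl
  | succ a ih =>
    have h1 : Cc q t (a + 1) (b μ)
        = Cc q t a (Del q t (b μ)) - Del q t (Cc q t a (b μ)) := rfl
    rw [h1, Del_eq_dg hb hM, dg_apply_basis, map_sub, map_smul, map_smul, Finsupp.sub_apply,
      Finsupp.smul_apply, dg_repr, ih, smul_eq_mul]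
    ring

theorem pd_X0 (F : Sy K) : pd (X 0 * F) = F + X 0 * pd F := by
  have : (pderiv (R := K) (0 : ℕ)) (X 0 * F) = X 0 * pderiv 0 F + F * pderiv 0 (X 0) :=
    Derivation.leibniz _ _ _
  rw [pderiv_X_self, mul_one] at this
  rw [add_comm]
  exact this

theorem Bn_expand {q t : K} {b : Module.Basis Par K (Sy K)} (hb : IsE q t b)
    (hM : Mj q t 0 ≠ 0) (s : ℕ) (μ : Par) :
    Bn q t s (b μ) = ∑ κ ∈ (b.repr (X 0 * b μ)).support,
      ((Ps q t κ 0 - Ps q t μ 0) ^ s * b.repr (X 0 * b μ) κ) • b κ := by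
  apply b.repr.injective
  ext ν
  rw [Bn_coef hb hM, map_sum, Finsupp.finsetSum_apply]
  simp only [map_smul, Module.Basis.repr_self, Finsupp.smul_apply, smul_eq_mul]
  by_cases h : ν ∈ (b.repr (X 0 * b μ)).support
  · rw [Finset.sum_eq_single ν]
    · rw [Finsupp.single_eq_same, mul_one]
    · intro κ _ hκ
      rw [Finsupp.single_eq_of_ne (Ne.symm hκ), mul_zero]
    · intro h'; exact absurd h h'
  · rw [Finsupp.notMem_support_iff.mp h, mul_zero, Finset.sum_eq_zero]
    intro κ hκ
    have : ν ≠ κ := fun e => h (e ▸ hκ)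
    rw [Finsupp.single_eq_of_ne this, mul_zero]

theorem Cc_expand {q t : K} {b : Module.Basis Par K (Sy K)} (hb : IsE q t b)
    (hM : Mj q t 0 ≠ 0) (a : ℕ) (μ : Par) :
    Cc q t a (b μ) = ∑ κ ∈ (b.repr (pd (b μ))).support,
      ((Ps q t μ 0 - Ps q t κ 0) ^ a * b.repr (pd (b μ)) κ) • b κ := by
  apply b.repr.injective
  ext ν
  rw [Cc_coef hb hM, map_sum, Finsupp.finsetSum_apply]
  simp only [map_smul, Module.Basis.repr_self, Finsupp.smul_apply, smul_eq_mul]
  by_cases h : ν ∈ (b.repr (pd (b μ))).support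
  · rw [Finset.sum_eq_single ν]
    · rw [Finsupp.single_eq_same, mul_one]
    · intro κ _ hκ
      rw [Finsupp.single_eq_of_ne (Ne.symm hκ), mul_zero]
    · intro h'; exact absurd h h'
  · rw [Finsupp.notMem_support_iff.mp h, mul_zero, Finset.sum_eq_zero]
    intro κ hκ
    have : ν ≠ κ := fun e => h (e ▸ hκ)
    rw [Finsupp.single_eq_of_ne this, mul_zero]

/-- uniqueness of the pair of rows -/
theorem rows_unique {f g : ℕ →₀ ℕ} {i j i' j' : ℕ} (hij : i ≠ j) (hij' : i' ≠ j')
    (h : f + Finsupp.single i 1 = g + Finsupp.single j 1)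
    (h' : f + Finsupp.single i' 1 = g + Finsupp.single j' 1) : i' = i ∧ j' = j := by
  have e1 := DFunLike.congr_fun h' i'
  have e2 := DFunLike.congr_fun h i'
  have e3 := DFunLike.congr_fun h' j'
  have e4 := DFunLike.congr_fun h j'
  simp only [Finsupp.add_apply, Finsupp.single_apply] at e1 e2 e3 e4
  refine ⟨?_, ?_⟩
  · by_contra hne
    rw [if_pos trivial, if_neg (Ne.symm hij')] at e1
    rw [if_neg (fun e => hne e.symm)] at e2
    split_ifs at e2 <;> omega
  · by_contra hne
    rw [if_neg hij', if_pos trivial] at e3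
    have hne' : ¬ j = j' := fun e => hne e.symm
    rw [if_neg hne'] at e4
    split_ifs at e4 <;> omega

theorem st_CB (K : Type*) [Field K] [CharZero K] (hPS : ST_PS K) (hPD : ST_PD K) : ST_CB K := by
  intro q t hG b hb
  have hM : Mj q t 0 ≠ 0 := hG.Mj_ne 0
  have hE := hb.toIsE
  refine ⟨⟨fun n μ => ∑ κ ∈ (b.repr (X 0 * b μ)).support,
      ((Ps q t κ 0 - Ps q t μ 0) ^ n * (b.repr (X 0 * b μ) κ * b.repr (pd (b κ)) μ))
      - ∑ κ ∈ (b.repr (pd (b μ))).support,
      ((Ps q t μ 0 - Ps q t κ 0) ^ n * (b.repr (pd (b μ)) κ * b.repr (X 0 * b κ) μ)), ?_⟩, ?_⟩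
  · intro a s
    -- the matrix coefficient of the commutator
    have hcoef : ∀ (a s : ℕ) (μ ν : Par),
        b.repr ((Cc q t a * Bn q t s - Bn q t s * Cc q t a) (b μ)) ν
        = ∑ κ ∈ (b.repr (X 0 * b μ)).support,
            ((Ps q t κ 0 - Ps q t μ 0) ^ s * (Ps q t κ 0 - Ps q t ν 0) ^ a *
              (b.repr (X 0 * b μ) κ * b.repr (pd (b κ)) ν))
          - ∑ κ ∈ (b.repr (pd (b μ))).support,
            ((Ps q t ν 0 - Ps q t κ 0) ^ s * (Ps q t μ 0 - Ps q t κ 0) ^ a *
              (b.repr (pd (b μ)) κ * b.repr (X 0 * b κ) ν)) := by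
      intro a s μ ν
      rw [LinearMap.sub_apply, Module.End.mul_apply, Module.End.mul_apply, Bn_expand hE hM,
        Cc_expand hE hM, map_sum, map_sum, map_sub, map_sum, map_sum, Finsupp.sub_apply,
        Finsupp.finsetSum_apply, Finsupp.finsetSum_apply]
      congr 1
      · refine Finset.sum_congr rfl fun κ _ => ?_
        rw [map_smul, map_smul, Finsupp.smul_apply, Cc_coef hE hM, smul_eq_mul]
        ring
      · refine Finset.sum_congr rfl fun κ _ => ?_
        rw [map_smul, map_smul, Finsupp.smul_apply, Bn_coef hE hM, smul_eq_mul]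
        ring
    refine b.ext fun μ => ?_
    apply b.repr.injective
    ext ν
    rw [hcoef, dg_apply_basis, map_smul, Finsupp.smul_apply, Module.Basis.repr_self, smul_eq_mul]
    by_cases hne : μ = ν
    · subst hne
      rw [Finsupp.single_eq_same, mul_one]
      congr 1
      · refine Finset.sum_congr rfl fun κ _ => ?_
        rw [pow_add]; ring
      · refine Finset.sum_congr rfl fun κ _ => ?_
        rw [pow_add]; ring
    · rw [Finsupp.single_eq_of_ne (Ne.symm hne), mul_zero]
      -- off-diagonal coefficient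
      have hXsupp : ∀ μ κ : Par, b.repr (X 0 * b μ) κ ≠ 0 → ∃ i, Adb μ i ∧ κ = up μ i := by
        intro μ κ h
        obtain ⟨d, hd, -, -⟩ := hb.pieri μ
        rw [hd, map_sum, Finsupp.finsetSum_apply] at h
        obtain ⟨i, hi, hi2⟩ := Finset.exists_ne_zero_of_sum_ne_zero h
        refine ⟨i, mem_ads.mp hi, ?_⟩
        by_contra hκ
        apply hi2
        rw [map_smul, Finsupp.smul_apply, Module.Basis.repr_self,
          Finsupp.single_eq_of_ne hκ, smul_zero]
      have hPsupp : ∀ μ κ : Par, b.repr (pd (b μ)) κ ≠ 0 → ∃ i, Adb κ i ∧ μ = up κ i := by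
        intro μ κ h
        obtain ⟨i, hi, hκ⟩ := hPS q t hG b hb μ κ h
        rw [mem_rms] at hi
        refine ⟨i, ?_, ?_⟩
        · rw [hκ]; exact adb_dn hi
        · rw [hκ, up_dn hi]
      have hxy : ∃ x y : K,
          (∀ κ, b.repr (X 0 * b μ) κ * b.repr (pd (b κ)) ν ≠ 0 →
            Ps q t κ 0 - Ps q t μ 0 = x ∧ Ps q t κ 0 - Ps q t ν 0 = y) ∧
          (∀ κ, b.repr (pd (b μ)) κ * b.repr (X 0 * b κ) ν ≠ 0 →
            Ps q t ν 0 - Ps q t κ 0 = x ∧ Ps q t μ 0 - Ps q t κ 0 = y) := by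
        have c1 : ∀ κ, b.repr (X 0 * b μ) κ * b.repr (pd (b κ)) ν ≠ 0 → ∃ i j, i ≠ j ∧
            μ.1 + Finsupp.single i 1 = ν.1 + Finsupp.single j 1 ∧
            Ps q t κ 0 - Ps q t μ 0 = t ^ i * q ^ μ.1 i ∧
            Ps q t κ 0 - Ps q t ν 0 = t ^ j * q ^ ν.1 j := by
          intro κ h
          obtain ⟨i, hi, hκ⟩ := hXsupp μ κ (left_ne_zero_of_mul h)
          obtain ⟨j, hj, hκ'⟩ := hPsupp κ ν (right_ne_zero_of_mul h)
          have e1 : κ.1 = μ.1 + Finsupp.single i 1 := by rw [hκ, up_val hi]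
          have e2 : κ.1 = ν.1 + Finsupp.single j 1 := by rw [hκ', up_val hj]
          refine ⟨i, j, ?_, e1.symm.trans e2, ?_, ?_⟩
          · intro hij
            subst hij
            apply hne
            apply Subtype.ext
            exact add_right_cancel (e1.symm.trans e2)
          · rw [hκ, Ps_up q t hi, zc]; ring
          · rw [hκ', Ps_up q t hj, zc]; ring
        have c2 : ∀ κ, b.repr (pd (b μ)) κ * b.repr (X 0 * b κ) ν ≠ 0 → ∃ i j, i ≠ j ∧
            μ.1 + Finsupp.single i 1 = ν.1 + Finsupp.single j 1 ∧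
            Ps q t ν 0 - Ps q t κ 0 = t ^ i * q ^ μ.1 i ∧
            Ps q t μ 0 - Ps q t κ 0 = t ^ j * q ^ ν.1 j := by
          intro κ h
          obtain ⟨j, hj, hμ⟩ := hPsupp μ κ (left_ne_zero_of_mul h)
          obtain ⟨i, hi, hν⟩ := hXsupp κ ν (right_ne_zero_of_mul h)
          have e1 : μ.1 = κ.1 + Finsupp.single j 1 := by rw [hμ, up_val hj]
          have e2 : ν.1 = κ.1 + Finsupp.single i 1 := by rw [hν, up_val hi]
          have hij : i ≠ j := by
            intro hij
            subst hij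
            apply hne
            apply Subtype.ext
            exact e1.trans e2.symm
          refine ⟨i, j, hij, ?_, ?_, ?_⟩
          · rw [e1, e2, add_right_comm]
          · rw [hν, Ps_up q t hi, zc, e1, Finsupp.add_apply,
              Finsupp.single_eq_of_ne hij]; ring
          · rw [hμ, Ps_up q t hj, zc, e2, Finsupp.add_apply,
              Finsupp.single_eq_of_ne (Ne.symm hij)]; ring
        by_cases hex : ∃ i j, i ≠ j ∧ μ.1 + Finsupp.single i 1 = ν.1 + Finsupp.single j 1
        · obtain ⟨i, j, hij, hmn⟩ := hex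
          refine ⟨t ^ i * q ^ μ.1 i, t ^ j * q ^ ν.1 j, fun κ h => ?_, fun κ h => ?_⟩
          · obtain ⟨i', j', hij', hmn', e1, e2⟩ := c1 κ h
            obtain ⟨hi, hj⟩ := rows_unique hij hij' hmn hmn'
            subst hi; subst hj
            exact ⟨e1, e2⟩
          · obtain ⟨i', j', hij', hmn', e1, e2⟩ := c2 κ h
            obtain ⟨hi, hj⟩ := rows_unique hij hij' hmn hmn'
            subst hi; subst hj
            exact ⟨e1, e2⟩
        · refine ⟨0, 0, fun κ h => ?_, fun κ h => ?_⟩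
          · obtain ⟨i', j', hij', hmn', -, -⟩ := c1 κ h
            exact absurd ⟨i', j', hij', hmn'⟩ hex
          · obtain ⟨i', j', hij', hmn', -, -⟩ := c2 κ h
            exact absurd ⟨i', j', hij', hmn'⟩ hex
      obtain ⟨x, y, hx, hy⟩ := hxy
      have h0 := hcoef 0 0 μ ν
      have h00 : (Cc q t 0 * Bn q t 0 - Bn q t 0 * Cc q t 0) (b μ) = b μ := by
        have : (Cc q t 0 * Bn q t 0 - Bn q t 0 * Cc q t 0) (b μ)
            = pd (X 0 * b μ) - X 0 * pd (b μ) := rfl
        rw [this, pd_X0]; ring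
      rw [h00, Module.Basis.repr_self, Finsupp.single_eq_of_ne (Ne.symm hne)] at h0
      simp only [pow_zero, one_mul] at h0
      have e1 : ∑ κ ∈ (b.repr (X 0 * b μ)).support,
            ((Ps q t κ 0 - Ps q t μ 0) ^ s * (Ps q t κ 0 - Ps q t ν 0) ^ a *
              (b.repr (X 0 * b μ) κ * b.repr (pd (b κ)) ν))
          = x ^ s * y ^ a * ∑ κ ∈ (b.repr (X 0 * b μ)).support,
              (b.repr (X 0 * b μ) κ * b.repr (pd (b κ)) ν) := by
        rw [Finset.mul_sum]
        refine Finset.sum_congr rfl fun κ _ => ?_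
        by_cases hz : b.repr (X 0 * b μ) κ * b.repr (pd (b κ)) ν = 0
        · rw [hz, mul_zero, mul_zero]
        · obtain ⟨a1, a2⟩ := hx κ hz
          rw [a1, a2]
      have e2 : ∑ κ ∈ (b.repr (pd (b μ))).support,
            ((Ps q t ν 0 - Ps q t κ 0) ^ s * (Ps q t μ 0 - Ps q t κ 0) ^ a *
              (b.repr (pd (b μ)) κ * b.repr (X 0 * b κ) ν))
          = x ^ s * y ^ a * ∑ κ ∈ (b.repr (pd (b μ))).support,
              (b.repr (pd (b μ)) κ * b.repr (X 0 * b κ) ν) := by
        rw [Finset.mul_sum]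
        refine Finset.sum_congr rfl fun κ _ => ?_
        by_cases hz : b.repr (pd (b μ)) κ * b.repr (X 0 * b κ) ν = 0
        · rw [hz, mul_zero, mul_zero]
        · obtain ⟨a1, a2⟩ := hy κ hz
          rw [a1, a2]
      rw [e1, e2, ← mul_sub, ← h0, mul_zero]
  · have h := hPD q t 0
    rw [zero_sub] at h
    have h1 : Dk q t (-1) = Dk q t 0 * pd - pd * Dk q t 0 := by
      rw [h]; abel
    have h2 : Cc q t 1 = pd * Del q t - Del q t * pd := rfl
    have h3 : Mj q t 0 • Del q t = 1 - Dk q t 0 := by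
      rw [Del, smul_smul, mul_inv_cancel₀ hM, one_smul]
    rw [h1, h2, smul_sub, ← mul_smul_comm, ← smul_mul_assoc, h3, mul_sub, sub_mul, mul_one, one_mul]
    abel

end

end TH70
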