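import Pool.Agent.Helper86.TH.Stmts

/-! # Row W7 of the project TH (MP_1b3f64_co) -/

namespace TH70

open MvPolynomial Finset TH

noncomputable section

variable {K : Type*} [Field K] [CharZero K]

/-- homogeneous of positive degree implies no constant term -/
theorem cc_of_WH {m : ℕ} {F : Sy K} (hm : 0 < m) (h : WH m F) : constantCoeff F = 0 := by
  by_contra hne
  rw [constantCoeff_eq] at hne
  have := h hne
  simp at this
  omega

theorem cc_eq_repr {q t : K} {b : Module.Basis Par K (Sy K)} (hb : IsE q t b) (F : Sy K) :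
    b.repr F P0 = constantCoeff F := by
  have key : b.coord P0 = (MvPolynomial.lcoeff K (0 : ℕ →₀ ℕ) : Sy K →ₗ[K] K) := by
    refine b.ext fun ν => ?_
    rw [Module.Basis.coord_apply, Module.Basis.repr_self]
    by_cases h : ν = P0
    · subst h
      rw [Finsupp.single_eq_same]
      have h0 : WH 0 (b P0) := by
        have := hb.hom P0
        rwa [card_P0] at this
      have h1 : b P0 = C (coeff 0 (b P0)) := by
        ext s
        rw [coeff_C]
        by_cases hs : 0 = s
        · subst hs; simp
        · rw [if_neg hs]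
          by_contra hne
          have hw := h0 hne
          apply hs
          ext j
          have h2 : ((Finsupp.weight (fun j : ℕ => j + 1)) s : ℕ) = 0 := hw
          rw [Finsupp.weight_apply, Finsupp.sum] at h2
          rw [Finset.sum_eq_zero_iff] at h2
          by_contra hj
          have hjs : j ∈ s.support := by
            rw [Finsupp.mem_support_iff]
            intro h3
            apply hj
            rw [h3]; rfl
          have h4 := h2 j hjs
          simp only [smul_eq_mul, mul_eq_zero] at h4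
          rcases h4 with h4 | h4
          · apply hj; rw [h4]; rfl
          · omega
      have h2 := hb.eps P0
      rw [h1] at h2
      have h3 : ep (0 : K) (C (coeff 0 (b P0))) = coeff 0 (b P0) := by
        rw [ep, ev, aeval_C]; rfl
      rw [h3] at h2
      exact h2.symm
    · rw [Finsupp.single_eq_of_ne (Ne.symm h)]
      have hc : 0 < card ν := by
        rcases Nat.eq_zero_or_pos (card ν) with h0 | h0
        · exact absurd (eq_P0_of_card h0) h
        · exact h0
      have := cc_of_WH hc (hb.hom ν)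
      rw [constantCoeff_eq] at this
      exact this.symm
  have := congrArg (fun g => g F) key
  simpa [constantCoeff_eq] using this

/-- the product over the cells other than `(0,0)` -/
def Pv (q t v : K) (μ : Par) : K :=
  cprod μ (fun i j => if i = 0 ∧ j = 0 then 1 else 1 - v * (q ^ j * t ^ i))

theorem Pv_one (q t : K) (μ : Par) : Pv q t 1 μ = Pim q t μ := by
  rw [Pv, Pim]
  congr 1
  funext i j
  rw [one_mul]

theorem Nu_eq (q t v : K) {μ : Par} (h : μ ≠ P0) : Nu q t v μ = (1 - v) * Pv q t v μ := by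
  have hpos : 0 < card μ := by
    rcases Nat.eq_zero_or_pos (card μ) with h0 | h0
    · exact absurd (eq_P0_of_card h0) h
    · exact h0
  have h00 : 0 < μ.1 0 := by
    by_contra hz
    have hz' : μ.1 0 = 0 := by omega
    have : card μ = 0 := by
      rw [card_range μ 0 (fun i _ => by
        have := Par.anti μ (Nat.zero_le i)
        omega)]
      simp
    omega
  rw [Nu, Pv, cprod_range μ _ (card μ) (fun i hi => Par.zero_of_card_le μ hi),
    cprod_range μ _ (card μ) (fun i hi => Par.zero_of_card_le μ hi)]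
  obtain ⟨n, hn⟩ : ∃ n, card μ = n + 1 := ⟨card μ - 1, by omega⟩
  obtain ⟨r, hr⟩ : ∃ r, μ.1 0 = r + 1 := ⟨μ.1 0 - 1, by omega⟩
  rw [hn, Finset.prod_range_succ', Finset.prod_range_succ' (n := n), hr,
    Finset.prod_range_succ', Finset.prod_range_succ' (n := r)]
  have e1 : ∏ k ∈ range n, ∏ j ∈ range (μ.1 (k + 1)),
      (if k + 1 = 0 ∧ j = 0 then (1 : K) else 1 - v * (q ^ j * t ^ (k + 1)))
      = ∏ k ∈ range n, ∏ j ∈ range (μ.1 (k + 1)), (1 - v * (q ^ j * t ^ (k + 1))) := by
    refine Finset.prod_congr rfl fun k _ => Finset.prod_congr rfl fun j _ => ?_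
    rw [if_neg (by omega)]
  have e2 : ∏ k ∈ range r, (if 0 = 0 ∧ k + 1 = 0 then (1 : K) else 1 - v * (q ^ (k + 1) * t ^ 0))
      = ∏ k ∈ range r, (1 - v * (q ^ (k + 1) * t ^ 0)) := by
    refine Finset.prod_congr rfl fun k _ => ?_
    rw [if_neg (by omega)]
  rw [e1, e2, if_pos ⟨rfl, rfl⟩]
  simp only [pow_zero, mul_one]
  ring

theorem Pim_ne {q t : K} (h : Gn q t) (μ : Par) : Pim q t μ ≠ 0 := by
  rw [Pim, cprod, Finset.prod_ne_zero_iff]
  intro i _
  rw [Finset.prod_ne_zero_iff]
  intro j _
  by_cases h0 : i = 0 ∧ j = 0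
  · rw [if_pos h0]; exact one_ne_zero
  · rw [if_neg h0]
    intro h1
    have h2 : q ^ j * t ^ i = 1 := (sub_eq_zero.mp h1).symm
    have h3 := h.ind j i (by exact_mod_cast h2)
    apply h0
    omega

theorem Pv_poly (q t : K) (μ : Par) : ∃ P : Polynomial K, ∀ v, Pv q t v μ = P.eval v := by
  refine ⟨cprod μ (fun i j => if i = 0 ∧ j = 0 then 1 else
    1 - Polynomial.X * Polynomial.C (q ^ j * t ^ i)), fun v => ?_⟩
  rw [Pv, cprod, cprod, Polynomial.eval_prod]
  refine Finset.prod_congr rfl fun i _ => ?_
  rw [Polynomial.eval_prod]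
  refine Finset.prod_congr rfl fun j _ => ?_
  by_cases h0 : i = 0 ∧ j = 0
  · rw [if_pos h0, if_pos h0, Polynomial.eval_one]
  · rw [if_neg h0, if_neg h0]; simp

theorem dgPv_poly (q t : K) (b : Module.Basis Par K (Sy K)) (ℓ : Sy K →ₗ[K] K) (G : Sy K) :
    ∃ P : Polynomial K, ∀ v, ℓ (dg b (Pv q t v) G) = P.eval v := by
  choose Q hQ using fun μ => Pv_poly q t μ
  refine ⟨∑ μ ∈ (b.repr G).support, Polynomial.C (b.repr G μ * ℓ (b μ)) * Q μ, fun v => ?_⟩
  have h1 : G = ∑ μ ∈ (b.repr G).support, b.repr G μ • b μ := by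
    conv_lhs => rw [← b.linearCombination_repr G]
    rw [Finsupp.linearCombination_apply, Finsupp.sum]
  conv_lhs => rw [h1]
  rw [map_sum, map_sum, Polynomial.eval_finsetSum]
  refine Finset.sum_congr rfl fun μ _ => ?_
  rw [map_smul, dg_apply_basis, map_smul, map_smul, hQ, Polynomial.eval_mul, Polynomial.eval_C,
    smul_eq_mul, smul_eq_mul]
  ring

/-- `N(v) = (1-v) Pi(v)` on elements without constant term -/
theorem dgNu_eq {q t : K} {b : Module.Basis Par K (Sy K)} (hb : IsE q t b) (v : K) (F : Sy K)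
    (hF : constantCoeff F = 0) : dg b (Nu q t v) F = (1 - v) • dg b (Pv q t v) F := by
  apply b.repr.injective
  ext μ
  rw [dg_repr, map_smul, Finsupp.smul_apply, dg_repr]
  by_cases h : μ = P0
  · subst h
    rw [cc_eq_repr hb, hF]; simp
  · rw [Nu_eq q t v h, smul_eq_mul]; ring

theorem cc_dg {q t : K} {b : Module.Basis Par K (Sy K)} (hb : IsE q t b) (f : Par → K) (F : Sy K)
    (hF : constantCoeff F = 0) : constantCoeff (dg b f F) = 0 := by
  rw [← cc_eq_repr hb, dg_repr, cc_eq_repr hb, hF, mul_zero]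

theorem st_W7 (K : Type*) [Field K] [CharZero K] (h2 : ST_W2 K) (h4 : ST_W4 K) (h5 : ST_W5 K)
    (h6 : ST_W6 K) : ST_W7 K := by
  intro q t hG b hb u k m F hm hF
  have hF0 := cc_of_WH hm hF
  set G : Sy K := dg b (fun μ => (Pim q t μ)⁻¹) F with hGdef
  have hG0 : constantCoeff G = 0 := cc_dg hb.toIsE _ _ hF0
  have hG1 : constantCoeff (est q t k * G) = 0 := by rw [map_mul, hG0, mul_zero]
  -- the identity with the factor `1 - v`
  have hv : ∀ v : K, (1 - v) * ep u (dg b (Pv q t v) (est q t k * G))
      = (1 - v) * ∑ j ∈ range (k + 1), v ^ j * (ep u (est q t (k - j)) *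
        ∑ p ∈ antidiagonal j, ep u (Yy q t b p.1 p.1 1) *
          ((-u) ^ p.2 * ep u (Hn q t b p.2 (dg b (Pv q t v) G)))) := by
    intro v
    have e1 := congrArg (fun g => ep u (g G)) (h5 q t hG b hb v k)
    simp only [Module.End.mul_apply, mu_apply, LinearMap.sum_apply, LinearMap.smul_apply,
      map_sum, map_smul] at e1
    rw [dgNu_eq hb.toIsE v _ hG1, map_smul, smul_eq_mul] at e1
    rw [e1, Finset.mul_sum]
    refine Finset.sum_congr rfl fun j hj => ?_
    have hjk : j ≤ k := by rw [Finset.mem_range] at hj; omega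
    rw [h2 q t hG b hb u k j _ hjk, h4 q t hG b hb u j, dgNu_eq hb.toIsE v _ hG0, smul_eq_mul,
      Finset.mul_sum, Finset.mul_sum, Finset.mul_sum, Finset.mul_sum, Finset.mul_sum]
    refine Finset.sum_congr rfl fun p _ => ?_
    rw [map_smul, map_smul, smul_eq_mul]
    ring
  -- both sides are polynomials in `v`
  obtain ⟨P, hP⟩ := dgPv_poly q t b (ep u).toLinearMap (est q t k * G)
  choose R hR using fun s : ℕ => dgPv_poly q t b ((ep u).toLinearMap ∘ₗ Hn q t b s) G
  have hpoly : (1 - Polynomial.X) * P = (1 - Polynomial.X) *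
      ∑ j ∈ range (k + 1), Polynomial.X ^ j * (Polynomial.C (ep u (est q t (k - j))) *
        ∑ p ∈ antidiagonal j, Polynomial.C (ep u (Yy q t b p.1 p.1 1)) *
          (Polynomial.C ((-u) ^ p.2) * R p.2)) := by
    refine Polynomial.funext fun v => ?_
    have e := hv v
    have e1 : P.eval v = ep u (dg b (Pv q t v) (est q t k * G)) := (hP v).symm
    have e2 : ∀ s, (R s).eval v = ep u (Hn q t b s (dg b (Pv q t v) G)) := fun s => (hR s v).symm
    rw [Polynomial.eval_mul, Polynomial.eval_sub, Polynomial.eval_one, Polynomial.eval_X, e1, e,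
      Polynomial.eval_mul, Polynomial.eval_sub, Polynomial.eval_one, Polynomial.eval_X,
      Polynomial.eval_finsetSum]
    congr 1
    refine Finset.sum_congr rfl fun j _ => ?_
    rw [Polynomial.eval_mul, Polynomial.eval_mul, Polynomial.eval_pow, Polynomial.eval_X,
      Polynomial.eval_C, Polynomial.eval_finsetSum]
    congr 2
    refine Finset.sum_congr rfl fun p _ => ?_
    rw [Polynomial.eval_mul, Polynomial.eval_mul, Polynomial.eval_C, Polynomial.eval_C, e2]
  have hne : (1 - Polynomial.X : Polynomial K) ≠ 0 := by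
    intro h0
    have := congrArg (Polynomial.eval (0 : K)) h0
    simp at this
  have hP2 := mul_left_cancel₀ hne hpoly
  have e3 := congrArg (Polynomial.eval (1 : K)) hP2
  have e1 : P.eval 1 = ep u (dg b (Pim q t) (est q t k * G)) := by
    have := (hP 1).symm
    rw [this]
    simp only [AlgHom.toLinearMap_apply]
    congr 2
    congr 1
    funext μ
    exact Pv_one q t μ
  have hPG : dg b (Pv q t 1) G = F := by
    rw [hGdef, ← Module.End.mul_apply, dg_mul]
    have : (fun μ => Pv q t 1 μ * (Pim q t μ)⁻¹) = fun _ => (1 : K) := by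
      funext μ
      rw [Pv_one, mul_inv_cancel₀ (Pim_ne hG μ)]
    rw [this, dg_one, Module.End.one_apply]
  have e2 : ∀ s, (R s).eval 1 = ep u (Hn q t b s F) := by
    intro s
    have := (hR s 1).symm
    rw [this, hPG]
    rfl
  rw [e1] at e3
  rw [e3, Polynomial.eval_finsetSum]
  simp only [Polynomial.eval_mul, Polynomial.eval_pow, Polynomial.eval_X, Polynomial.eval_C,
    one_pow, one_mul, Polynomial.eval_finsetSum, e2]
  -- rearrange the triple sum
  have e4 : ∑ j ∈ range (k + 1), (ep u (est q t (k - j)) *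
        ∑ p ∈ antidiagonal j, ep u (Yy q t b p.1 p.1 1) *
          ((-u) ^ p.2 * ep u (Hn q t b p.2 F)))
      = ∑ s ∈ range (k + 1), ((-u) ^ s * ep u (Hn q t b s F)) *
        ∑ p ∈ antidiagonal (k - s), ep u (est q t p.1) * ep u (Yy q t b p.2 p.2 1) := by
    have l1 : ∀ j ∈ range (k + 1), (ep u (est q t (k - j)) *
        ∑ p ∈ antidiagonal j, ep u (Yy q t b p.1 p.1 1) *
          ((-u) ^ p.2 * ep u (Hn q t b p.2 F)))
        = ∑ s ∈ range (j + 1), ((-u) ^ s * ep u (Hn q t b s F)) *
          (ep u (est q t (k - j)) * ep u (Yy q t b (j - s) (j - s) 1)) := by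
      intro j _
      rw [Finset.mul_sum, Finset.Nat.sum_antidiagonal_eq_sum_range_succ_mk,
        ← Finset.sum_range_reflect]
      refine Finset.sum_congr rfl fun s hs => ?_
      rw [Finset.mem_range] at hs
      have h1 : j + 1 - 1 - s = j - s := by omega
      have h2 : j - (j - s) = s := by omega
      rw [h1]
      simp only [h2]
      ring
    rw [Finset.sum_congr rfl l1]
    have l2 : ∑ j ∈ range (k + 1), ∑ s ∈ range (j + 1), ((-u) ^ s * ep u (Hn q t b s F)) *
          (ep u (est q t (k - j)) * ep u (Yy q t b (j - s) (j - s) 1))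
        = ∑ s ∈ range (k + 1), ∑ j ∈ Finset.Ico s (k + 1), ((-u) ^ s * ep u (Hn q t b s F)) *
          (ep u (est q t (k - j)) * ep u (Yy q t b (j - s) (j - s) 1)) := by
      refine Finset.sum_comm' fun j s => ?_
      simp only [Finset.mem_range, Finset.mem_Ico]
      omega
    rw [l2]
    refine Finset.sum_congr rfl fun s hs => ?_
    rw [Finset.mem_range] at hs
    rw [← Finset.mul_sum]
    congr 1
    rw [Finset.sum_Ico_eq_sum_range, Finset.Nat.sum_antidiagonal_eq_sum_range_succ_mk,
      ← Finset.sum_range_reflect]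
    have hks : k + 1 - s = k - s + 1 := by omega
    rw [hks]
    refine Finset.sum_congr rfl fun j hj => ?_
    rw [Finset.mem_range] at hj
    have a1 : k - s + 1 - 1 - j = k - s - j := by omega
    have a2 : k - (s + (k - s - j)) = j := by omega
    have a3 : s + (k - s - j) - s = k - s - j := by omega
    rw [a1, a2, a3]
  rw [e4]
  have e5 : ∀ s ∈ range (k + 1), ((-u) ^ s * ep u (Hn q t b s F)) *
        ∑ p ∈ antidiagonal (k - s), ep u (est q t p.1) * ep u (Yy q t b p.2 p.2 1)
      = if s = k then (-u) ^ k * ep u (Hn q t b k F) else 0 := by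
    intro s hs
    rw [Finset.mem_range] at hs
    rw [h6 q t hG b hb u (k - s)]
    by_cases h : s = k
    · subst h; simp
    · rw [if_neg (by omega), if_neg h, mul_zero]
  rw [Finset.sum_congr rfl e5, Finset.sum_ite_eq' (range (k + 1)) k,
    if_pos (Finset.mem_range.mpr (Nat.lt_succ_self k))]

end

end TH70
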